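import Mathlib
import Pool.Agent.H.MP_cd9307_al.Main

namespace Pool.Agent.Results.MP_cd9307_al.Q1

open Pool.Agent.H.MP_cd9307_al

theorem result (S : Type) [Nonempty S] [AddCommSemigroup S] [Semigroup S] [LeftDistribClass S]
    [RightDistribClass S] (hS : FinBased (fun x y : S => x + y) (fun x y : S => x * y)) :
    FinBased (Option.map₂ fun x y : S => x + y) (Option.map₂ fun x y : S => x * y) :=
  Pool.Agent.H.MP_cd9307_al.main S hS

end Pool.Agent.Results.MP_cd9307_al.Q1
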